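import Pool.Agent.R841.DagSep

set_option autoImplicit false
set_option linter.unusedSectionVars false
set_option linter.unusedSimpArgs false
set_option linter.unusedVariables false

/-!
MP_3f84da_ag, Q1: the vanishing ideal `I_G` of a DAG is toric if and only if the shortest trek
map `ψ_G` is defined and `I_G = ST_G`.
-/

open MvPolynomial

namespace Pool.Agent.Results.MP_3f84da_ag.ToricIffShortestTrek

/-! ### Definitions -/

/-- Indices of the parameters: `Sum.inl i` for `a_i`, `Sum.inr (k, l)` for `λ_{kl}` with `k → l`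
an edge. -/
abbrev ParIx {n : ℕ} (E : Fin n → Fin n → Prop) : Type :=
  Fin n ⊕ {p : Fin n × Fin n // E p.1 p.2}

/-- Indices of the coordinates `σ_{ij}`, `i ≤ j`. -/
abbrev Ix (n : ℕ) : Type := {p : Fin n × Fin n // p.1 ≤ p.2}

/-- `l` is a simple trek between `i` and `j`: it lists distinct vertices, consecutive ones are
joined by an edge (in either direction), it starts at `i`, ends at `j` and has no collider. -/
def IsTrek {n : ℕ} (E : Fin n → Fin n → Prop) (i j : Fin n) (l : List (Fin n)) : Prop :=
  l.Nodup ∧ l.IsChain (fun a b => E a b ∨ E b a) ∧ l.head? = some i ∧ l.getLast? = some j ∧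
    ∀ a c b, [a, c, b] <:+: l → ¬ (E a c ∧ E b c)

open scoped Classical in
/-- The parameter of the edge joining `a` and `b`. -/
noncomputable def edgeVar {n : ℕ} (E : Fin n → Fin n → Prop) (a b : Fin n) :
    MvPolynomial (ParIx E) ℂ :=
  if h : E a b then X (Sum.inr ⟨(a, b), h⟩)
  else if h : E b a then X (Sum.inr ⟨(b, a), h⟩) else 0

/-- The product of the parameters of the edges of the path `l`. -/
noncomputable def edgeProd {n : ℕ} (E : Fin n → Fin n → Prop) :
    List (Fin n) → MvPolynomial (ParIx E) ℂ
  | [] => 1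
  | [_] => 1
  | a :: b :: l => edgeVar E a b * edgeProd E (b :: l)

/-- `a_{top(P)} ∏_{k → l ∈ P} λ_{kl}`.  All edges go from smaller to larger labels, so the top of
a trek, the vertex where its orientation changes, is its least vertex. -/
noncomputable def weight {n : ℕ} (E : Fin n → Fin n → Prop) (l : List (Fin n)) :
    MvPolynomial (ParIx E) ℂ :=
  l.min?.elim 0 (fun t => X (Sum.inl t)) * edgeProd E l

open scoped Classical in
/-- The finite set `T(i, j)` of simple treks between `i` and `j`. -/
noncomputable def treks {n : ℕ} (E : Fin n → Fin n → Prop) (i j : Fin n) :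
    Finset (List (Fin n)) :=
  ((Finset.univ : Finset {l : List (Fin n) // l.Nodup}).image Subtype.val).filter (IsTrek E i j)

/-- The simple trek rule `φ_G`. -/
noncomputable def trekRule {n : ℕ} (E : Fin n → Fin n → Prop) :
    MvPolynomial (Ix n) ℂ →ₐ[ℂ] MvPolynomial (ParIx E) ℂ :=
  aeval (fun p => ∑ l ∈ treks E p.1.1 p.1.2, weight E l)

/-- `l` is a trek of minimal length between `i` and `j`. -/
def IsShortest {n : ℕ} (E : Fin n → Fin n → Prop) (i j : Fin n) (l : List (Fin n)) : Prop :=
  IsTrek E i j l ∧ ∀ l', IsTrek E i j l' → l.length ≤ l'.length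

/-- The shortest trek map is defined: whenever `i < j` are joined by a trek, there is a unique
trek of minimal length between them. -/
def ShortestDefined {n : ℕ} (E : Fin n → Fin n → Prop) : Prop :=
  ∀ i j, i < j → (∃ l, IsTrek E i j l) → ∃! l, IsShortest E i j l

open scoped Classical in
/-- The shortest trek map `ψ_G`: `σ_{ij}` goes to the weight of the shortest trek between `i` and
`j`, and to `0` if there is no trek. -/
noncomputable def shortMap {n : ℕ} (E : Fin n → Fin n → Prop) :
    MvPolynomial (Ix n) ℂ →ₐ[ℂ] MvPolynomial (ParIx E) ℂ :=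
  aeval (fun p => if h : ∃ l, IsShortest E p.1.1 p.1.2 l then weight E h.choose else 0)

/-- `I` is the kernel of an algebra homomorphism to a polynomial ring which sends every
`σ_{ij}` to a monomial or to `0`. -/
def IsToric {n : ℕ} (I : Ideal (MvPolynomial (Ix n) ℂ)) : Prop :=
  ∃ (τ : Type) (χ : MvPolynomial (Ix n) ℂ →ₐ[ℂ] MvPolynomial τ ℂ),
    (∀ p, χ (X p) = 0 ∨ ∃ e, χ (X p) = monomial e 1) ∧ RingHom.ker χ = I

/-! ### Treks -/

open Pool.Agent.R841.Dag

variable {n : ℕ} {E : Fin n → Fin n → Prop}

lemma mem_treks {i j : Fin n} {l : List (Fin n)} : l ∈ treks E i j ↔ IsTrek E i j l := by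
  classical
  unfold treks
  rw [Finset.mem_filter]
  constructor
  · exact fun h => h.2
  · intro h
    refine ⟨?_, h⟩
    rw [Finset.mem_image]
    exact ⟨⟨l, h.1⟩, Finset.mem_univ _, rfl⟩

lemma IsTrek.reverse {i j : Fin n} {l : List (Fin n)} (h : IsTrek E i j l) :
    IsTrek E j i l.reverse := by
  obtain ⟨h1, h2, h3, h4, h5⟩ := h
  refine ⟨List.nodup_reverse.2 h1, isChain_reverse_adj h2, ?_, ?_, ?_⟩
  · rw [List.head?_reverse]; exact h4
  · rw [List.getLast?_reverse]; exact h3
  · intro a c b hi hab
    have : [b, c, a] <:+: l := by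
      have h6 : [b, c, a].reverse <:+: l.reverse := by simpa using hi
      exact List.reverse_infix.1 h6
    exact h5 b c a this ⟨hab.2, hab.1⟩

lemma rtg_le (hE : ∀ i j, E i j → i < j) {a b : Fin n} (h : Relation.ReflTransGen E a b) :
    a ≤ b := by
  induction h with
  | refl => exact le_rfl
  | tail _ h2 ih => exact le_trans ih (hE _ _ h2).le

/-- a collider-free path which starts with an outgoing edge is directed -/
lemma rtg_of_out {x y z : Fin n} {l : List (Fin n)}
    (hch : (x :: y :: l).IsChain (fun a b => E a b ∨ E b a))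
    (hcol : ∀ a c b, [a, c, b] <:+: (x :: y :: l) → ¬ (E a c ∧ E b c))
    (hlast : (x :: y :: l).getLast? = some z) (hxy : E x y) : Relation.ReflTransGen E x z := by
  have := (ca_of_chain (E := E) (fun _ => False) (fun _ _ _ h => h) (y :: l) x z hch
    (fun a c b hi h1 h2 => hcol a c b hi ⟨h1, h2⟩) hlast).2 y l rfl hxy
  exact this.resolve_right id

lemma IsTrek.le_of_mem (hE : ∀ i j, E i j → i < j) {i j : Fin n} {l : List (Fin n)}
    (h : IsTrek E i j l) {y : Fin n} (hy : y ∈ l) : y ≤ i ∨ y ≤ j := by
  obtain ⟨h1, h2, h3, h4, h5⟩ := h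
  obtain ⟨l1, l2, rfl⟩ := List.append_of_mem hy
  rcases l2 with _ | ⟨z, l2'⟩
  · right
    rw [List.getLast?_append_of_ne_nil _ (by simp)] at h4
    simp at h4
    exact h4.le
  · have hsuf : (y :: z :: l2') <:+ (l1 ++ y :: z :: l2') := List.suffix_append _ _
    have hch : (y :: z :: l2').IsChain (fun a b => E a b ∨ E b a) := h2.suffix hsuf
    by_cases hyz : E y z
    · right
      apply rtg_le hE
      refine rtg_of_out hch (fun a c b hi => h5 a c b (hi.trans hsuf.isInfix)) ?_ hyz
      rw [← h4, List.getLast?_append_of_ne_nil _ (by simp)]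
    · left
      have hzy : E z y := by
        rw [List.isChain_cons_cons] at hch
        exact hch.1.resolve_left hyz
      rcases List.eq_nil_or_concat l1 with rfl | ⟨l1', x, rfl⟩
      · simp at h3
        exact h3.le
      · rw [List.concat_eq_append] at h2 h3 h5
        have e1 : (l1' ++ [x]) ++ y :: z :: l2' = (l1' ++ [x, y]) ++ (z :: l2') := by simp
        rw [e1] at h2 h3 h5
        have hpre : (l1' ++ [x, y]) <+: ((l1' ++ [x, y]) ++ (z :: l2')) :=
          List.prefix_append _ _
        have hch' : (l1' ++ [x, y]).IsChain (fun a b => E a b ∨ E b a) := (List.isChain_append.1 h2).1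
        have hrev : (l1' ++ [x, y]).reverse = y :: x :: l1'.reverse := by simp
        have hch'' := isChain_reverse_adj hch'
        rw [hrev] at hch''
        have hyx : E y x := by
          have hadj := hch''
          rw [List.isChain_cons_cons] at hadj
          refine hadj.1.resolve_right (fun hxy => ?_)
          exact h5 x y z ⟨l1', l2', by simp⟩ ⟨hxy, hzy⟩
        apply rtg_le hE
        refine rtg_of_out hch'' ?_ ?_ hyx
        · intro a c b hi hab
          have h6 : [b, c, a] <:+: (l1' ++ [x, y]) := by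
            have h7 : [b, c, a].reverse <:+: (l1' ++ [x, y]).reverse := by
              rw [hrev]; simpa using hi
            exact List.reverse_infix.1 h7
          exact h5 b c a (h6.trans hpre.isInfix) ⟨hab.2, hab.1⟩
        · have h8 : ((l1' ++ [x, y]) ++ (z :: l2')).head? = (l1' ++ [x, y]).head? :=
            List.head?_append_of_ne_nil _ (by simp)
          rw [← hrev, List.getLast?_reverse, ← h8, h3]

lemma trek_snoc (hE : ∀ i j, E i j → i < j) {i j : Fin n} (hij : i < j) {l : List (Fin n)} :
    IsTrek E i j l ↔ ∃ k l', l = l' ++ [j] ∧ E k j ∧ IsTrek E i k l' := by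
  constructor
  · intro h
    have hh := h
    obtain ⟨h1, h2, h3, h4, h5⟩ := h
    obtain ⟨l', rfl⟩ := List.getLast?_eq_some_iff.1 h4
    rcases List.eq_nil_or_concat l' with rfl | ⟨l'', k, rfl⟩
    · simp at h3
      exact absurd h3.symm hij.ne
    · rw [List.concat_eq_append] at *
      have hrev : (l'' ++ [k] ++ [j]).reverse = j :: k :: l''.reverse := by simp
      have hr := hh.reverse
      rw [hrev] at hr
      have hkj : E k j := by
        have hadj := hr.2.1
        rw [List.isChain_cons_cons] at hadj
        refine hadj.1.resolve_left (fun hjk => ?_)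
        have := rtg_le hE (rtg_of_out hr.2.1 hr.2.2.2.2 hr.2.2.2.1 hjk)
        exact absurd hij (not_lt.2 this)
      refine ⟨k, l'' ++ [k], rfl, hkj, ?_, ?_, ?_, ?_, ?_⟩
      · exact (List.nodup_append.1 h1).1
      · exact (List.isChain_append.1 h2).1
      · have h8 : ((l'' ++ [k]) ++ [j]).head? = (l'' ++ [k]).head? :=
          List.head?_append_of_ne_nil _ (by simp)
        rw [← h8, h3]
      · simp
      · exact fun a c b hi => h5 a c b (hi.trans (List.prefix_append _ _).isInfix)
  · rintro ⟨k, l', rfl, hkj, h⟩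
    have hle : ∀ y ∈ l', y < j := by
      intro y hy
      rcases h.le_of_mem hE hy with h' | h'
      · exact lt_of_le_of_lt h' hij
      · exact lt_of_le_of_lt h' (hE _ _ hkj)
    obtain ⟨h1, h2, h3, h4, h5⟩ := h
    have hne : l' ≠ [] := by
      rintro rfl
      simp at h3
    refine ⟨?_, ?_, ?_, ?_, ?_⟩
    · rw [List.nodup_append]
      refine ⟨h1, List.nodup_singleton _, ?_⟩
      intro a ha b hb hab
      rw [List.mem_singleton] at hb
      have := hle a ha
      rw [hab, hb] at this
      exact lt_irrefl _ this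
    · rw [List.isChain_append]
      refine ⟨h2, List.isChain_singleton _, ?_⟩
      intro x hx y hy
      rw [h4] at hx
      simp at hx hy
      rw [← hx, ← hy]
      exact Or.inl hkj
    · rw [List.head?_append_of_ne_nil _ hne, h3]
    · simp
    · intro a c b hi hab
      rw [List.infix_concat_iff] at hi
      rcases hi with hi | hi
      · obtain ⟨t, ht⟩ := hi
        have h6 : t ++ [a, c, b] = (t ++ [a, c]) ++ [b] := by simp
        rw [h6] at ht
        obtain ⟨h7, h8⟩ := List.append_inj' ht rfl
        simp at h8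
        have hc : c ∈ l' := by rw [← h7]; simp
        have h9 := hle c hc
        have h10 := hE _ _ hab.2
        rw [h8] at h10
        exact absurd h9 (not_lt.2 h10.le)
      · exact h5 a c b hi hab

lemma trek_self {i : Fin n} {l : List (Fin n)} : IsTrek E i i l ↔ l = [i] := by
  constructor
  · rintro ⟨h1, h2, h3, h4, h5⟩
    obtain ⟨l', rfl⟩ := List.getLast?_eq_some_iff.1 h4
    rcases l' with _ | ⟨a, l''⟩
    · rfl
    · exfalso
      simp at h3
      subst h3
      simp at h1
  · rintro rfl
    refine ⟨by simp, List.isChain_singleton _, rfl, rfl, ?_⟩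
    intro a c b hi
    have := hi.length_le
    simp at this

/-! ### Weights -/

lemma edgeVar_symm (hE : ∀ i j, E i j → i < j) (a b : Fin n) :
    edgeVar E a b = edgeVar E b a := by
  unfold edgeVar
  by_cases h : E a b
  · have h' : ¬ E b a := fun h' => lt_asymm (hE _ _ h) (hE _ _ h')
    rw [dif_pos h, dif_neg h', dif_pos h]
  · rw [dif_neg h]
    by_cases h' : E b a
    · rw [dif_pos h', dif_pos h']
    · rw [dif_neg h', dif_neg h', dif_neg h]

lemma edgeProd_concat (l : List (Fin n)) (b a : Fin n) :
    edgeProd E (l ++ [b, a]) = edgeProd E (l ++ [b]) * edgeVar E b a := by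
  induction l with
  | nil => simp [edgeProd]
  | cons c l ih =>
    rcases l with _ | ⟨d, l'⟩
    · simp [edgeProd]
    · simp only [List.cons_append] at ih ⊢
      rw [edgeProd, edgeProd, ih, mul_assoc]

lemma edgeProd_reverse (hE : ∀ i j, E i j → i < j) (l : List (Fin n)) :
    edgeProd E l.reverse = edgeProd E l := by
  induction l with
  | nil => rfl
  | cons a l ih =>
    rcases l with _ | ⟨b, l'⟩
    · rfl
    · have h1 : (a :: b :: l').reverse = l'.reverse ++ [b, a] := by simp
      have h2 : (b :: l').reverse = l'.reverse ++ [b] := by simp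
      rw [h1, edgeProd_concat, ← h2, ih, edgeProd, edgeVar_symm hE, mul_comm]

lemma min?_reverse (l : List (Fin n)) : l.reverse.min? = l.min? := by
  cases h : l.min? with
  | none =>
    rw [List.min?_eq_none_iff] at h ⊢
    rw [h]; rfl
  | some a =>
    rw [List.min?_eq_some_iff] at h ⊢
    exact ⟨List.mem_reverse.2 h.1, fun b hb => h.2 b (List.mem_reverse.1 hb)⟩

lemma weight_reverse (hE : ∀ i j, E i j → i < j) (l : List (Fin n)) :
    weight E l.reverse = weight E l := by
  unfold weight
  rw [min?_reverse, edgeProd_reverse hE]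

lemma edgeVar_of_E {k j : Fin n} (h : E k j) : edgeVar E k j = lam ℂ E k j := by
  unfold edgeVar
  rw [dif_pos h, lam_of_E ℂ h]

lemma weight_snoc (hE : ∀ i j, E i j → i < j) {i j k : Fin n} {l : List (Fin n)} (hij : i < j)
    (hkj : E k j) (h : IsTrek E i k l) :
    weight E (l ++ [j]) = lam ℂ E k j * weight E l := by
  have hle : ∀ y ∈ l, y < j := by
    intro y hy
    rcases h.le_of_mem hE hy with h' | h'
    · exact lt_of_le_of_lt h' hij
    · exact lt_of_le_of_lt h' (hE _ _ hkj)
  have hne : l ≠ [] := by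
    rintro rfl
    have := h.2.2.1
    simp at this
  have hmin : (l ++ [j]).min? = l.min? := by
    cases hm : l.min? with
    | none =>
      rw [List.min?_eq_none_iff] at hm
      exact absurd hm hne
    | some a =>
      rw [List.min?_eq_some_iff] at hm ⊢
      refine ⟨List.mem_append_left _ hm.1, fun b hb => ?_⟩
      rw [List.mem_append, List.mem_singleton] at hb
      rcases hb with hb | hb
      · exact hm.2 b hb
      · rw [hb]; exact (hle a hm.1).le
  obtain ⟨l', hl'⟩ := List.getLast?_eq_some_iff.1 h.2.2.2.1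
  have hprod : edgeProd E (l ++ [j]) = edgeProd E l * lam ℂ E k j := by
    rw [hl']
    have : l' ++ [k] ++ [j] = l' ++ [k, j] := by simp
    rw [this, edgeProd_concat, edgeVar_of_E hkj]
  unfold weight
  rw [hmin, hprod]; ring

lemma edgeVar_monomial {a b : Fin n} (h : E a b ∨ E b a) : ∃ e, edgeVar E a b = monomial e 1 := by
  unfold edgeVar
  by_cases h1 : E a b
  · rw [dif_pos h1]; exact ⟨_, rfl⟩
  · rw [dif_neg h1, dif_pos (h.resolve_left h1)]; exact ⟨_, rfl⟩

lemma edgeProd_monomial (l : List (Fin n)) (h : l.IsChain (fun a b => E a b ∨ E b a)) :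
    ∃ e, edgeProd E l = monomial e 1 := by
  induction l with
  | nil => exact ⟨0, rfl⟩
  | cons a l ih =>
    rcases l with _ | ⟨b, l'⟩
    · exact ⟨0, rfl⟩
    · rw [List.isChain_cons_cons] at h
      obtain ⟨e, he⟩ := ih h.2
      obtain ⟨e', he'⟩ := edgeVar_monomial h.1
      exact ⟨e' + e, by rw [edgeProd, he, he', monomial_mul, one_mul]⟩

lemma weight_monomial {i j : Fin n} {l : List (Fin n)} (h : IsTrek E i j l) :
    ∃ e, weight E l = monomial e 1 := by
  obtain ⟨e, he⟩ := edgeProd_monomial l h.2.1
  unfold weight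
  cases hm : l.min? with
  | none =>
    rw [List.min?_eq_none_iff] at hm
    have := h.2.2.1
    rw [hm] at this
    simp at this
  | some a =>
    refine ⟨Finsupp.single (Sum.inl a) 1 + e, ?_⟩
    rw [he, Option.elim_some, X, monomial_mul, one_mul]

/-! ### The system of trek polynomials -/

/-- the trek polynomials -/
noncomputable def tp (E : Fin n → Fin n → Prop) (i j : Fin n) : MvPolynomial (ParIx E) ℂ :=
  ∑ l ∈ treks E i j, weight E l

lemma tp_symm (hE : ∀ i j, E i j → i < j) (i j : Fin n) : tp E i j = tp E j i := by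
  unfold tp
  refine Finset.sum_bij' (fun l _ => l.reverse) (fun l _ => l.reverse) ?_ ?_ ?_ ?_ ?_
  · intro l hl
    rw [mem_treks] at hl ⊢
    exact hl.reverse
  · intro l hl
    rw [mem_treks] at hl ⊢
    exact hl.reverse
  · intro l _; exact List.reverse_reverse l
  · intro l _; exact List.reverse_reverse l
  · intro l _; exact (weight_reverse hE l).symm

lemma tp_diag (i : Fin n) : tp E i i = X (Sum.inl i) := by
  unfold tp
  have : treks E i i = {[i]} := by
    ext l
    rw [mem_treks, Finset.mem_singleton, trek_self]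
  rw [this, Finset.sum_singleton]
  simp [weight, edgeProd]

lemma tp_recu (hE : ∀ i j, E i j → i < j) (i j : Fin n) (hij : i < j) :
    tp E i j = ∑ k, lam ℂ E k j * tp E i k := by
  classical
  have h1 : ∑ k, lam ℂ E k j * tp E i k =
      ∑ k ∈ Finset.univ.filter (fun k => E k j), lam ℂ E k j * tp E i k := by
    symm
    apply Finset.sum_filter_of_ne
    intro k _ hk
    by_contra h
    exact hk (by rw [lam_of_not ℂ h, zero_mul])
  rw [h1]
  have h2 : ∀ k ∈ Finset.univ.filter (fun k => E k j), lam ℂ E k j * tp E i k =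
      ∑ l ∈ treks E i k, weight E (l ++ [j]) := by
    intro k hk
    rw [Finset.mem_filter] at hk
    unfold tp
    rw [Finset.mul_sum]
    apply Finset.sum_congr rfl
    intro l hl
    rw [mem_treks] at hl
    rw [weight_snoc hE hij hk.2 hl]
  rw [Finset.sum_congr rfl h2, Finset.sum_sigma']
  unfold tp
  symm
  refine Finset.sum_bij (fun x _ => x.2 ++ [j]) ?_ ?_ ?_ ?_
  · rintro ⟨k, l⟩ hx
    rw [Finset.mem_sigma, Finset.mem_filter, mem_treks] at hx
    rw [mem_treks, trek_snoc hE hij]
    exact ⟨k, l, rfl, hx.1.2, hx.2⟩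
  · rintro ⟨k, l⟩ hx ⟨k', l'⟩ hx' h
    rw [Finset.mem_sigma, Finset.mem_filter, mem_treks] at hx hx'
    have h3 : l = l' := (List.append_inj' h rfl).1
    subst h3
    have h4 : k = k' := by
      have h5 := hx.2.2.2.2.1
      have h6 := hx'.2.2.2.2.1
      simp only at h5 h6
      rw [h5] at h6
      exact Option.some.inj h6
    rw [h4]
  · intro l hl
    rw [mem_treks, trek_snoc hE hij] at hl
    obtain ⟨k, l', rfl, hkj, hl'⟩ := hl
    refine ⟨⟨k, l'⟩, ?_, rfl⟩
    rw [Finset.mem_sigma, Finset.mem_filter, mem_treks]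
    exact ⟨⟨Finset.mem_univ _, hkj⟩, hl'⟩
  · intro x _; rfl

lemma rank_lt {i j : Fin n} (h : i.val < j.val) : i < j := h

/-- the system of trek polynomials -/
noncomputable def sysT (hE : ∀ i j, E i j → i < j) : Sys ℂ E (fun v : Fin n => v.val) where
  s := tp E
  eps := 0
  symm := tp_symm hE
  recu := fun i j hij => tp_recu hE i j hij
  diag := by
    intro v
    rw [tp_diag, C_0, zero_mul, add_zero]

/-! ### Shortest treks -/

lemma val_inj : Function.Injective (fun v : Fin n => v.val) := Fin.val_injective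

lemma trek_ord (hE : ∀ i j, E i j → i < j) : ∀ (m : ℕ) (i j : Fin n) (l : List (Fin n)),
    l.length ≤ m → IsTrek E i j l →
    tp E i j ≠ 0 ∧ ord ℂ E (tp E i j) + 1 ≤ l.length := by
  classical
  set S := sysT hE with hS
  intro m
  induction m with
  | zero =>
    intro i j l hl h
    have h1 : l = [] := List.length_eq_zero_iff.1 (by omega)
    have := h.2.2.1
    rw [h1] at this
    simp at this
  | succ m ih =>
    have key : ∀ (i j : Fin n) (l : List (Fin n)), i < j → l.length ≤ m + 1 → IsTrek E i j l →
        tp E i j ≠ 0 ∧ ord ℂ E (tp E i j) + 1 ≤ l.length := by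
      intro i j l hij hl h
      obtain ⟨k, l', rfl, hkj, hl'⟩ := (trek_snoc hE hij).1 h
      rw [List.length_append, List.length_singleton] at hl ⊢
      obtain ⟨h1, h2⟩ := ih i k l' (by omega) hl'
      have h3 := ev_sT ℂ S (fun i j h => hE i j h) val_inj k (i := i) (j := j) hij
      rw [if_pos hkj] at h3
      have h4 := congrArg (fun p => Polynomial.coeff p (ord ℂ E (tp E i k) + 1)) h3
      simp only [Polynomial.coeff_map, Polynomial.coeff_X_mul] at h4
      have h5 : (toT ℂ E (S.s i k)).coeff (ord ℂ E (tp E i k)) ≠ 0 := by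
        have : low ℂ E (tp E i k) ≠ 0 := by rw [Ne, low_eq_zero]; exact h1
        exact this
      have h6 : (toT ℂ E (S.s i j)).coeff (ord ℂ E (tp E i k) + 1) ≠ 0 := by
        intro h0
        rw [h0, map_zero] at h4
        exact h5 h4.symm
      have h7 : ord ℂ E (tp E i j) ≤ ord ℂ E (tp E i k) + 1 := ord_le_of_coeff ℂ E h6
      refine ⟨?_, by omega⟩
      intro h0
      have h8 : S.s i j = 0 := h0
      rw [h8] at h6
      simp at h6
    intro i j l hl h
    rcases lt_trichotomy i j with hij | hij | hij
    · exact key i j l hij hl h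
    · subst hij
      rw [trek_self] at h
      subst h
      have h1 := low_diag ℂ S i
      have h2 : ord ℂ E (tp E i i) = 0 := h1.1
      refine ⟨s_diag_ne_zero ℂ S i, ?_⟩
      rw [h2]; simp
    · have := key j i l.reverse hij (by rw [List.length_reverse]; exact hl) h.reverse
      rw [List.length_reverse] at this
      rw [tp_symm hE i j]
      exact this

lemma exists_trek (i j : Fin n) (h : tp E i j ≠ 0) : ∃ l, IsTrek E i j l := by
  by_contra hcon
  push Not at hcon
  apply h
  unfold tp
  apply Finset.sum_eq_zero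
  intro l hl
  exact absurd (mem_treks.1 hl) (hcon l)

lemma trek_unique (hE : ∀ i j, E i j → i < j)
    (hML : ∀ i j, tp E i j ≠ 0 → MonoLow ℂ (tp E i j)) :
    ∀ (m : ℕ) (i j : Fin n), i.val ≤ m → j.val ≤ m → tp E i j ≠ 0 →
    ∃ P, IsTrek E i j P ∧ P.length = ord ℂ E (tp E i j) + 1 ∧
      weight E P = low ℂ E (tp E i j) ∧
      ∀ Q, IsTrek E i j Q → Q.length ≤ P.length → Q = P := by
  classical
  set S := sysT hE with hS
  have hErk : ∀ i j : Fin n, E i j → i.val < j.val := fun i j h => hE i j h
  intro m
  induction m using Nat.strong_induction_on with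
  | _ m ih =>
    have key : ∀ (i j : Fin n), i.val < j.val → j.val ≤ m → tp E i j ≠ 0 →
        ∃ P, IsTrek E i j P ∧ P.length = ord ℂ E (tp E i j) + 1 ∧
          weight E P = low ℂ E (tp E i j) ∧
          ∀ Q, IsTrek E i j Q → Q.length ≤ P.length → Q = P := by
      intro i j hij hj hne
      obtain ⟨k, hkj, hik, hord, hlow, huniq⟩ := claimU ℂ S hErk val_inj hij (hML i j hne)
      have hk := hErk _ _ hkj
      obtain ⟨P', hP1, hP2, hP3, hP4⟩ := ih (j.val - 1) (by omega) i k (by omega) (by omega) hik
      have hord' : ord ℂ E (tp E i j) = ord ℂ E (tp E i k) + 1 := hord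
      have hlow' : low ℂ E (tp E i j) = lam ℂ E k j * low ℂ E (tp E i k) := hlow
      refine ⟨P' ++ [j], (trek_snoc hE hij).2 ⟨k, P', rfl, hkj, hP1⟩, ?_, ?_, ?_⟩
      · rw [List.length_append, List.length_singleton, hP2, hord']
      · rw [weight_snoc hE hij hkj hP1, hP3, hlow']
      · intro Q hQ hlen
        obtain ⟨k', Q', rfl, hk'j, hQ'⟩ := (trek_snoc hE hij).1 hQ
        rw [List.length_append, List.length_append, List.length_singleton] at hlen
        obtain ⟨g1, g2⟩ := trek_ord hE _ i k' Q' le_rfl hQ'
        have hkk : k' = k := by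
          by_contra hkk
          have := huniq k' hk'j hkk g1
          have h9 : ord ℂ E (tp E i k) < ord ℂ E (tp E i k') := this
          omega
        subst hkk
        rw [hP4 Q' hQ' (by omega)]
    intro i j hi hj hne
    rcases lt_trichotomy i.val j.val with hij | hij | hij
    · exact key i j hij hj hne
    · have : i = j := Fin.ext hij
      subst this
      have h1 := low_diag ℂ S i
      have h2 : ord ℂ E (tp E i i) = 0 := h1.1
      refine ⟨[i], trek_self.2 rfl, by rw [h2]; rfl, ?_, ?_⟩
      · have h3 : low ℂ E (tp E i i) = X (Sum.inl i) := h1.2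
        rw [h3]
        simp [weight, edgeProd]
      · intro Q hQ _
        exact trek_self.1 hQ
    · have hne' : tp E j i ≠ 0 := by rw [tp_symm hE]; exact hne
      obtain ⟨P, h1, h2, h3, h4⟩ := key j i hij hi hne'
      rw [tp_symm hE i j]
      refine ⟨P.reverse, h1.reverse, ?_, ?_, ?_⟩
      · rw [List.length_reverse, h2]
      · rw [weight_reverse hE, h3]
      · intro Q hQ hlen
        rw [List.length_reverse] at hlen
        have := h4 Q.reverse hQ.reverse (by rw [List.length_reverse]; exact hlen)
        rw [← this, List.reverse_reverse]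

/-! ### Comparison of kernels -/

lemma ker_le_of {K : Type} [Field K] {Z τ ρ : Type} {χ : MvPolynomial Z K →ₐ[K] MvPolynomial τ K}
    (hχ : ∀ z, χ (X z) = 0 ∨ ∃ e, χ (X z) = monomial e 1)
    (F : MvPolynomial Z K →ₐ[K] MvPolynomial ρ K)
    (g : (Z →₀ ℕ) → MvPolynomial ρ K) (hg : ∀ u, g u = F (monomial u 1))
    (h0 : ∀ u, χ (monomial u 1) = 0 → g u = 0)
    (h1 : ∀ u v, χ (monomial u 1) = χ (monomial v 1) → g u = g v) :
    ∀ f, χ f = 0 → F f = 0 := by
  classical
  set L : MvPolynomial τ K →ₗ[K] MvPolynomial ρ K := (basisMonomials τ K).constr K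
    (fun m => if h : ∃ u, χ (monomial u 1) = monomial m 1 then g h.choose else 0) with hL
  have hL1 : ∀ m, L (monomial m 1) =
      if h : ∃ u, χ (monomial u 1) = monomial m 1 then g h.choose else 0 := by
    intro m
    have := (basisMonomials τ K).constr_basis K
      (fun m => if h : ∃ u, χ (monomial u 1) = monomial m 1 then g h.choose else 0) m
    rw [coe_basisMonomials] at this
    exact this
  have hL2 : ∀ u, L (χ (monomial u 1)) = F (monomial u 1) := by
    intro u
    rcases monomialMap_monomial hχ u with h | ⟨e, h⟩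
    · rw [h, map_zero, ← hg, h0 u h]
    · rw [h, hL1]
      have hex : ∃ u, χ (monomial u 1) = monomial e 1 := ⟨u, h⟩
      rw [dif_pos hex, ← hg]
      apply h1
      rw [hex.choose_spec, h]
  have hL3 : ∀ f, L (χ f) = F f := by
    intro f
    induction f using MvPolynomial.induction_on' with
    | add p q hp hq => rw [map_add, map_add, map_add, hp, hq]
    | monomial u a =>
      have h1 : (monomial u a : MvPolynomial Z K) = a • monomial u 1 := by
        rw [smul_monomial, smul_eq_mul, mul_one]
      rw [h1, map_smul, map_smul, map_smul, hL2]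
  intro f hf
  rw [← hL3, hf, map_zero]

/-! ### The result -/

/-- index of an unordered pair -/
def ixx (i j : Fin n) : Ix n :=
  if h : i ≤ j then ⟨(i, j), h⟩ else ⟨(j, i), (not_le.1 h).le⟩

lemma ixx_inj (i j k l : Fin n) (h : ixx i j = ixx k l) :
    (i = k ∧ j = l) ∨ (i = l ∧ j = k) := by
  unfold ixx at h
  split_ifs at h <;> simp only [Subtype.mk.injEq, Prod.mk.injEq] at h
  · exact Or.inl h
  · exact Or.inr h
  · exact Or.inr ⟨h.2, h.1⟩
  · exact Or.inl ⟨h.2, h.1⟩

lemma ixx_surj (z : Ix n) : ∃ i j, z = ixx i j := by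
  obtain ⟨⟨i, j⟩, h⟩ := z
  exact ⟨i, j, by unfold ixx; rw [dif_pos h]⟩

lemma trekRule_X (p : Ix n) : trekRule E (X p) = tp E p.1.1 p.1.2 := by
  unfold trekRule
  rw [aeval_X]
  rfl

lemma trekRule_ixx (hE : ∀ i j, E i j → i < j) (i j : Fin n) :
    trekRule E (X (ixx i j)) = tp E i j := by
  rw [trekRule_X]
  unfold ixx
  split_ifs with h
  · rfl
  · exact tp_symm hE j i

lemma shortMap_X (p : Ix n) :
    (∃ l, IsShortest E p.1.1 p.1.2 l ∧ shortMap E (X p) = weight E l) ∨
    ((¬ ∃ l, IsShortest E p.1.1 p.1.2 l) ∧ shortMap E (X p) = 0) := by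
  classical
  unfold shortMap
  rw [aeval_X]
  by_cases h : ∃ l, IsShortest E p.1.1 p.1.2 l
  · left
    exact ⟨h.choose, h.choose_spec, by rw [dif_pos h]⟩
  · right
    exact ⟨h, by rw [dif_neg h]⟩

lemma shortMap_monomial (p : Ix n) :
    shortMap E (X p) = 0 ∨ ∃ e, shortMap E (X p) = monomial e 1 := by
  rcases shortMap_X (E := E) p with ⟨l, hl, h⟩ | ⟨_, h⟩
  · right
    obtain ⟨e, he⟩ := weight_monomial hl.1
    exact ⟨e, by rw [h, he]⟩
  · exact Or.inl h

/-- **Q1 (yes).** For every DAG `G` on `[n]` whose edges go from smaller to larger labels, `I_G` is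
toric if and only if the shortest trek map `ψ_G` is defined and `I_G = ST_G`. -/
theorem result (n : ℕ) (E : Fin n → Fin n → Prop) (hE : ∀ i j, E i j → i < j) :
    IsToric (RingHom.ker (trekRule E)) ↔
      (ShortestDefined E ∧ RingHom.ker (trekRule E) = RingHom.ker (shortMap E)) := by
  classical
  constructor
  swap
  · rintro ⟨_, h⟩
    exact ⟨ParIx E, shortMap E, shortMap_monomial, h.symm⟩
  rintro ⟨τ, χ, hχ, hker⟩
  have hker' : ∀ f, χ f = 0 ↔ trekRule E f = 0 := by
    intro f
    rw [← RingHom.mem_ker (f := trekRule E), ← hker, RingHom.mem_ker]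
  have hPB : PB (trekRule E) := PB_of_monomialMap hχ hker'
  set S := sysT hE with hS
  have hErk : ∀ i j : Fin n, E i j → i.val < j.val := fun i j h => hE i j h
  have hφ : ∀ i j, trekRule E (X (ixx i j)) = S.s i j := fun i j => trekRule_ixx hE i j
  have hML : ∀ i j, tp E i j ≠ 0 → MonoLow ℂ (tp E i j) := fun i j h =>
    monoLow_s ℂ S hErk val_inj ixx_inj hφ hPB h
  have huniq : ∀ i j, tp E i j ≠ 0 → ∃ P, IsTrek E i j P ∧
      P.length = ord ℂ E (tp E i j) + 1 ∧ weight E P = low ℂ E (tp E i j) ∧
      ∀ Q, IsTrek E i j Q → Q.length ≤ P.length → Q = P := fun i j h =>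
    trek_unique hE hML (max i.val j.val) i j (le_max_left _ _) (le_max_right _ _) h
  have hshort : ∀ i j, (∃ l, IsTrek E i j l) → ∃ P, IsShortest E i j P ∧
      weight E P = low ℂ E (tp E i j) ∧ ∀ Q, IsShortest E i j Q → Q = P := by
    rintro i j ⟨l, hl⟩
    obtain ⟨P, h1, h2, h3, h4⟩ := huniq i j (trek_ord hE _ i j l le_rfl hl).1
    refine ⟨P, ⟨h1, fun l' hl' => ?_⟩, h3, fun Q hQ => h4 Q hQ.1 (hQ.2 P h1)⟩
    rw [h2]
    exact (trek_ord hE _ i j l' le_rfl hl').2
  have hval : ∀ p : Ix n, shortMap E (X p) = low ℂ E (trekRule E (X p)) := by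
    intro p
    rw [trekRule_X]
    rcases shortMap_X (E := E) p with ⟨l, hl, h⟩ | ⟨hno, h⟩
    · obtain ⟨P, _, h2, h3⟩ := hshort p.1.1 p.1.2 ⟨l, hl.1⟩
      rw [h, h3 l hl, h2]
    · have h0 : tp E p.1.1 p.1.2 = 0 := by
        by_contra hne
        obtain ⟨P, h1, _, _⟩ := hshort p.1.1 p.1.2 (exists_trek _ _ hne)
        exact hno ⟨P, h1⟩
      rw [h, h0, low_zero]
  have hvalm : ∀ u : Ix n →₀ ℕ,
      shortMap E (monomial u 1) = low ℂ E (trekRule E (monomial u 1)) := by
    intro u
    induction u using Finsupp.induction_linear with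
    | zero =>
      have : (monomial (0 : Ix n →₀ ℕ) (1 : ℂ)) = 1 := rfl
      rw [this, map_one, map_one, low_one]
    | add f g hf hg =>
      have : (monomial (f + g) 1 : MvPolynomial (Ix n) ℂ) = monomial f 1 * monomial g 1 := by
        rw [monomial_mul, one_mul]
      rw [this, map_mul, map_mul, low_mul, hf, hg]
    | single z m =>
      have : (monomial (Finsupp.single z m) 1 : MvPolynomial (Ix n) ℂ) = X z ^ m := by
        rw [X_pow_eq_monomial]
      rw [this, map_pow, map_pow, low_pow, hval]
  refine ⟨?_, ?_⟩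
  · rintro i j _ hex
    obtain ⟨P, h1, _, h3⟩ := hshort i j hex
    exact ⟨P, h1, fun Q hQ => h3 Q hQ⟩
  · apply le_antisymm
    · intro f hf
      rw [RingHom.mem_ker] at hf ⊢
      refine ker_le_of hχ (shortMap E) (fun u => low ℂ E (trekRule E (monomial u 1)))
        (fun u => (hvalm u).symm) ?_ ?_ f ((hker' f).2 hf)
      · intro u hu
        rw [low_eq_zero]
        exact (hker' _).1 hu
      · intro u v huv
        have h1 : χ (monomial u 1 - monomial v 1) = 0 := by rw [map_sub, huv, sub_self]
        have h2 := (hker' _).1 h1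
        rw [map_sub, sub_eq_zero] at h2
        show low ℂ E (trekRule E (monomial u 1)) = low ℂ E (trekRule E (monomial v 1))
        rw [h2]
    · intro f hf
      rw [RingHom.mem_ker] at hf ⊢
      refine ker_le_of shortMap_monomial (trekRule E) (fun u => trekRule E (monomial u 1))
        (fun u => rfl) ?_ ?_ f hf
      · intro u hu
        rw [hvalm, low_eq_zero] at hu
        exact hu
      · intro u v huv
        rw [hvalm, hvalm] at huv
        show trekRule E (monomial u 1) = trekRule E (monomial v 1)
        by_cases h0 : trekRule E (monomial u 1) = 0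
        · rw [h0, low_zero] at huv
          rw [h0]
          exact ((low_eq_zero ℂ E).1 huv.symm).symm
        · have h0' : trekRule E (monomial v 1) ≠ 0 := by
            rw [Ne, ← low_eq_zero ℂ E, ← huv, low_eq_zero]
            exact h0
          exact eq_of_low_eq ℂ S hErk val_inj
            (alg_monomial ℂ S hErk val_inj ixx_inj hφ hPB ixx_surj u h0)
            (alg_monomial ℂ S hErk val_inj ixx_inj hφ hPB ixx_surj v h0') huv

end Pool.Agent.Results.MP_3f84da_ag.ToricIffShortestTrek
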